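import Pool.Agent.Q220.Stk.Main

/-!
The stack model: `E log X = ∞` does not force percolation. Counterexample in dimension two.
-/

set_option autoImplicit false

namespace Pool.Agent.Results.MP_c59c01_pr.LogMomentNotSharp

open MeasureTheory ProbabilityTheory Pool.Agent.Q220.Stk
open scoped ENNReal unitInterval

/-- There is a law `μ` on the positive integers with `E log X = ∞` such that in the stack model on
`ℤ²` with i.i.d. radii of law `μ`, for every `p ≤ 1/800` (which is smaller than `p_c(ℤ²)`) and every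
`q < 1`, one has `θ^Λ(p,q) = 0` for almost every environment `Λ`. -/
theorem result : ∃ μ : Measure ℕ, IsProbabilityMeasure μ ∧ μ {0} = 0 ∧
    ∫⁻ x, ENNReal.ofReal (Real.log x) ∂μ = ∞ ∧ (1 / 800 : ℝ) < pc ∧
    ∀ p q : I, (p : ℝ) ≤ 1 / 800 → (q : ℝ) < 1 →
      ∀ᵐ X ∂(Measure.infinitePi fun _ : ℤ => μ), theta (RR X) p q = 0 := by
  refine ⟨lawX, inferInstance, ?_, lawX_log, pc_gt, fun p q hp hq => no_percolation hp hq⟩
  refine measure_mono_null ?_ lawX_supp
  intro x hx
  rw [Set.mem_singleton_iff] at hx
  subst hx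
  rintro (h | ⟨a, h⟩)
  · exact absurd h (by norm_num)
  · have := big_gt_one a
    omega

end Pool.Agent.Results.MP_c59c01_pr.LogMomentNotSharp
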